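import Pool.Agent.H84.S2.TgB

/-!
# Board `s2l_modules`, row B_FRN: a frame for other generators
-/

set_option autoImplicit false

namespace Pool.Agent.H5.S2

open MvPolynomial SC
open Pool.Agent.H84.SF
open Pool.Agent.H84.S2

section frn

variable {k O : Type} [Field k] [CommRing O] [Algebra k O]

theorem frn_mem {ε : O →ₐ[k] k} {X Y : O} {dX dY : Derivation k O O} (hF : Frm ε X Y dX dY)
    (h : O) : h ∈ Ideal.span {X, Y} ↔ ε h = 0 := by
  rw [Ideal.mem_span_pair, hF.max]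
  constructor
  · rintro ⟨a, b, h⟩
    exact ⟨a, b, h.symm⟩
  · rintro ⟨a, b, h⟩
    exact ⟨a, b, h.symm⟩

theorem frn_sq {X Y : O} {s : O} (hs : s ∈ Ideal.span {X, Y} ^ 2) :
    ∃ p ∈ Ideal.span {X, Y}, ∃ q ∈ Ideal.span {X, Y}, s = p * X + q * Y := by
  rw [pow_two] at hs
  induction hs using Submodule.mul_induction_on' with
  | mem_mul_mem a ha b hb =>
    obtain ⟨c, d, hcd⟩ := Ideal.mem_span_pair.1 hb
    refine ⟨a * c, Ideal.mul_mem_right _ _ ha, a * d, Ideal.mul_mem_right _ _ ha, ?_⟩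
    rw [← hcd]
    ring
  | add a _ b _ iha ihb =>
    obtain ⟨p, hp, q, hq, h⟩ := iha
    obtain ⟨p', hp', q', hq', h'⟩ := ihb
    refine ⟨p + p', Ideal.add_mem _ hp hp', q + q', Ideal.add_mem _ hq hq', ?_⟩
    rw [h, h']
    ring

theorem frn_der {ε : O →ₐ[k] k} {X Y : O} {s : O} (hX : ε X = 0) (hY : ε Y = 0)
    (hJ : ∀ h ∈ Ideal.span {X, Y}, ε h = 0) (hs : s ∈ Ideal.span {X, Y} ^ 2)
    (D : Derivation k O O) : ε (D s) = 0 := by
  obtain ⟨p, hp, q, hq, rfl⟩ := frn_sq hs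
  rw [map_add, D.leibniz, D.leibniz, smul_eq_mul, smul_eq_mul, smul_eq_mul, smul_eq_mul, map_add,
    map_add, map_add, map_mul, map_mul, map_mul, map_mul, hJ p hp, hJ q hq, hX, hY]
  ring

end frn

theorem pf_FRN : T_FRN := by
  intro k O _ _ _ _ ε X Y dX dY hF α β hα hβ
  have hm := frn_mem hF
  have hX : ε X = 0 := (hm X).1 (Ideal.subset_span (by simp))
  have hY : ε Y = 0 := (hm Y).1 (Ideal.subset_span (by simp))
  have hJ : ∀ h ∈ Ideal.span {X, Y}, ε h = 0 := fun h hh => (hm h).1 hh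
  obtain ⟨s, hs⟩ : ∃ s, s = α - X := ⟨_, rfl⟩
  obtain ⟨t, ht⟩ : ∃ t, t = β - Y := ⟨_, rfl⟩
  rw [← hs] at hα
  rw [← ht] at hβ
  have hαs : α = X + s := by rw [hs]; ring
  have hβt : β = Y + t := by rw [ht]; ring
  obtain ⟨a11, h11⟩ : ∃ a, a = dX α := ⟨_, rfl⟩
  obtain ⟨a12, h12⟩ : ∃ a, a = dY α := ⟨_, rfl⟩
  obtain ⟨a21, h21⟩ : ∃ a, a = dX β := ⟨_, rfl⟩
  obtain ⟨a22, h22⟩ : ∃ a, a = dY β := ⟨_, rfl⟩
  have e11 : ε a11 = 1 := by
    rw [h11, hαs, map_add, hF.xx, map_add, map_one, frn_der hX hY hJ hα dX, add_zero]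
  have e12 : ε a12 = 0 := by
    rw [h12, hαs, map_add, hF.gx, map_add, map_zero, frn_der hX hY hJ hα dY, add_zero]
  have e21 : ε a21 = 0 := by
    rw [h21, hβt, map_add, hF.xg, map_add, map_zero, frn_der hX hY hJ hβ dX, add_zero]
  have e22 : ε a22 = 1 := by
    rw [h22, hβt, map_add, hF.gg, map_add, map_one, frn_der hX hY hJ hβ dY, add_zero]
  have hdet : ε (a11 * a22 - a12 * a21) ≠ 0 := by
    rw [map_sub, map_mul, map_mul, e11, e12, e21, e22]
    simp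
  obtain ⟨δ, hδ⟩ := (hF.unit _ hdet).exists_left_inv
  obtain ⟨p, hp, q, hq, hspq⟩ := frn_sq hα
  obtain ⟨r, hr, u, hu, hrtu⟩ := frn_sq hβ
  have hdet2 : ε ((1 + p) * (1 + u) - q * r) ≠ 0 := by
    rw [map_sub, map_mul, map_mul, map_add, map_add, map_one, hJ p hp, hJ q hq, hJ r hr, hJ u hu]
    simp
  obtain ⟨η, hη⟩ := (hF.unit _ hdet2).exists_left_inv
  have hα0 : ε α = 0 := by
    rw [hαs, hspq, map_add, map_add, map_mul, map_mul, hX, hY]
    ring
  have hβ0 : ε β = 0 := by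
    rw [hβt, hrtu, map_add, map_add, map_mul, map_mul, hX, hY]
    ring
  refine ⟨δ • (a22 • dX - a21 • dY), δ • (a11 • dY - a12 • dX), ?_, ?_, ?_, ?_, ?_, ?_⟩
  · exact hF.unit
  · intro h
    constructor
    · intro hh
      obtain ⟨a, b, hab⟩ := (hF.max h).1 hh
      refine ⟨η * (a * (1 + u) - b * r), η * (b * (1 + p) - a * q), ?_⟩
      rw [hab, hαs, hβt, hspq, hrtu]
      linear_combination (-(a * X + b * Y)) * hη
    · rintro ⟨a, b, rfl⟩
      rw [map_add, map_mul, map_mul, hα0, hβ0]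
      ring
  · show δ * (a22 * dX α - a21 * dY α) = 1
    rw [← h11, ← h12]
    linear_combination hδ
  · show δ * (a22 * dX β - a21 * dY β) = 0
    rw [← h21, ← h22]
    ring
  · show δ * (a11 * dY α - a12 * dX α) = 0
    rw [← h11, ← h12]
    ring
  · show δ * (a11 * dY β - a12 * dX β) = 1
    rw [← h21, ← h22]
    linear_combination hδ

end Pool.Agent.H5.S2
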